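import Pool.Agent.Helper60.PlzA.Goals

/-!
# Packet PLA EXCH (project PLA of helper60, MP_8e7d5e_co)

Exchange inequality for an optimal partition.
-/

set_option autoImplicit false

namespace Pool.Agent.Helper5.PlzA

open Finset Pool.Agent.Helper60.PlzA

open scoped Classical

variable {V : Type} [Fintype V]

/-- the adjacency indicator -/
noncomputable def aa (G : SimpleGraph V) (u v : V) : ℝ := if G.Adj u v then 1 else 0

omit [Fintype V] in
theorem aa_comm (G : SimpleGraph V) (u v : V) : aa G u v = aa G v u := by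
  unfold aa
  simp only [G.adj_comm]

omit [Fintype V] in
theorem aa_nonneg (G : SimpleGraph V) (u v : V) : 0 ≤ aa G u v := by
  unfold aa
  split_ifs <;> norm_num

omit [Fintype V] in
theorem aa_self (G : SimpleGraph V) (u : V) : aa G u u = 0 := by
  unfold aa
  simp

/-- indicator of a proposition -/
noncomputable def ii (p : Prop) : ℝ := if p then 1 else 0

theorem ii_true {p : Prop} (h : p) : ii p = 1 := if_pos h

theorem ii_false {p : Prop} (h : ¬ p) : ii p = 0 := if_neg h

theorem ii_tr : ii True = 1 := if_pos trivial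

theorem ii_comm {α : Type} (a b : α) : ii (a = b) = ii (b = a) :=
  congrArg ii (propext eq_comm)

theorem ii_nonneg (p : Prop) : 0 ≤ ii p := by
  unfold ii
  split_ifs <;> norm_num

theorem en_eq {M : ℕ} (G : SimpleGraph V) (σ : V → Fin M) :
    (En G σ : ℝ) = ∑ u, ∑ v, aa G u v * ii (σ u = σ v) := by
  unfold En
  rw [card_filter, Nat.cast_sum, Fintype.sum_prod_type]
  refine sum_congr rfl fun u _ => sum_congr rfl fun v _ => ?_
  unfold aa ii
  by_cases h1 : G.Adj u v <;> by_cases h2 : σ u = σ v <;> simp [h1, h2]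

theorem dp_eq {M : ℕ} (G : SimpleGraph V) (σ : V → Fin M) (x : V) (j : Fin M) :
    (Dp G σ x j : ℝ) = ∑ v, aa G x v * ii (σ v = j) := by
  unfold Dp
  rw [card_filter, Nat.cast_sum]
  refine sum_congr rfl fun v _ => ?_
  unfold aa ii
  by_cases h1 : G.Adj x v <;> by_cases h2 : σ v = j <;> simp [h1, h2]

theorem exc_eq {M : ℕ} (G : SimpleGraph V) (σ : V → Fin M) (x : V) (j : Fin M) :
    exc G σ x j = ∑ v, aa G x v * (ii (σ v = j) - ii (σ v = σ x)) := by
  unfold exc
  rw [dp_eq, dp_eq, ← sum_sub_distrib]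
  exact sum_congr rfl fun v _ => by ring

theorem eb_eq (G : SimpleGraph V) (X Y : Finset V) :
    (eb G X Y : ℝ) = ∑ u, ∑ v, aa G u v * (ii (u ∈ X) * ii (v ∈ Y)) := by
  have h : (X ×ˢ Y).filter (fun p => G.Adj p.1 p.2) =
      (univ : Finset (V × V)).filter (fun p => G.Adj p.1 p.2 ∧ p.1 ∈ X ∧ p.2 ∈ Y) := by
    ext p
    simp only [mem_filter, mem_product, mem_univ, true_and]
    tauto
  unfold eb
  rw [h, card_filter, Nat.cast_sum, Fintype.sum_prod_type]
  refine sum_congr rfl fun u _ => sum_congr rfl fun v _ => ?_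
  unfold aa ii
  by_cases h1 : G.Adj u v <;> by_cases h2 : u ∈ X <;> by_cases h3 : v ∈ Y <;> simp [h1, h2, h3]

theorem sum_mem_eq (X : Finset V) (f : V → ℝ) : ∑ x ∈ X, f x = ∑ u, ii (u ∈ X) * f u := by
  have h : ∀ u, ii (u ∈ X) * f u = if u ∈ X then f u else 0 := by
    intro u
    unfold ii
    split_ifs <;> simp
  simp only [h]
  rw [← sum_filter]
  congr 1
  ext u
  simp

theorem swap (G : SimpleGraph V) (F : V → V → ℝ) :
    ∑ u, ∑ v, aa G u v * F u v = ∑ u, ∑ v, aa G u v * F v u := by
  rw [sum_comm]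
  exact sum_congr rfl fun u _ => sum_congr rfl fun v _ => by rw [aa_comm]

theorem exch : S_EXCH := by
  intro V _ G M σ hopt i X Y j hX hY hσ hj hji
  set σ' : V → Fin M := fun v => if v ∈ X then j v else if v ∈ Y then i else σ v with hσ'
  have hXY : ∀ v, v ∈ X → v ∉ Y := fun v h1 h2 => hY v h2 (hX v h1)
  have sX : ∀ v, v ∈ X → σ' v = j v := fun v h => by simp [hσ', h]
  have sY : ∀ v, v ∈ Y → σ' v = i := fun v h => by
    have : v ∉ X := fun h1 => hXY v h1 h
    simp [hσ', h, this]
  have sO : ∀ v, v ∉ X → v ∉ Y → σ' v = σ v := fun v h1 h2 => by simp [hσ', h1, h2]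
  have h0 : (En G σ : ℝ) ≤ En G σ' := by exact_mod_cast hopt σ'
  rw [en_eq, en_eq] at h0
  -- the two functions
  set hx : V → V → ℝ := fun u v => ii (u ∈ X) * (ii (σ v = j u) - ii (σ v = σ u)) with hhx
  set hy : V → V → ℝ := fun u v => ii (u ∈ Y) * (ii (σ v = i) - ii (σ v = σ u)) with hhy
  set g : V → V → ℝ := fun u v => hx u v + hx v u + hy u v + hy v u +
    ii (u ∈ X) * ii (v ∈ X) + ii (u ∈ Y) * ii (v ∈ Y) - ii (u ∈ X) * ii (v ∈ Y) -
      ii (v ∈ X) * ii (u ∈ Y) with hg
  have key : ∀ u v, u ≠ v → ii (σ' u = σ' v) - ii (σ u = σ v) ≤ g u v := by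
    intro u v huv
    by_cases hu1 : u ∈ X
    · have hu2 : u ∉ Y := hXY u hu1
      by_cases hv1 : v ∈ X
      · have hv2 : v ∉ Y := hXY v hv1
        have e1 : ¬ (j u = j v) := fun h => huv (hj hu1 hv1 h)
        have e2 : ¬ (i = j u) := fun h => hji u hu1 h.symm
        have e3 : ¬ (i = j v) := fun h => hji v hv1 h.symm
        simp only [hg, hhx, hhy, sX u hu1, sX v hv1, hX u hu1, hX v hv1, ii_true hu1, ii_true hv1,
          ii_false hu2, ii_false hv2, ii_false e1, ii_false e2, ii_false e3, ii_tr]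
        norm_num
      · by_cases hv2 : v ∈ Y
        · have e1 : ¬ (j u = i) := hji u hu1
          have e2 : ¬ (σ v = i) := hY v hv2
          have e3 : ¬ (i = σ v) := fun h => e2 h.symm
          have e4 := ii_nonneg (σ v = j u)
          simp only [hg, hhx, hhy, sX u hu1, sY v hv2, hX u hu1, ii_true hu1, ii_true hv2,
            ii_false hu2, ii_false hv1, ii_false e1, ii_false e2, ii_false e3,
            ii_tr]
          linarith
        · have e1 : ii (j u = σ v) = ii (σ v = j u) := ii_comm _ _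
          have e2 : ii (i = σ v) = ii (σ v = i) := ii_comm _ _
          simp only [hg, hhx, hhy, sX u hu1, sO v hv1 hv2, hX u hu1, ii_true hu1,
            ii_false hu2, ii_false hv1, ii_false hv2, e1, e2]
          linarith
    · by_cases hu2 : u ∈ Y
      · by_cases hv1 : v ∈ X
        · have hv2 : v ∉ Y := hXY v hv1
          have e1 : ¬ (i = j v) := fun h => hji v hv1 h.symm
          have e2 : ¬ (σ u = i) := hY u hu2
          have e3 : ¬ (i = σ u) := fun h => e2 h.symm
          have e4 := ii_nonneg (σ u = j v)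
          simp only [hg, hhx, hhy, sY u hu2, sX v hv1, hX v hv1, ii_true hv1, ii_true hu2,
            ii_false hv2, ii_false hu1, ii_false e1, ii_false e2, ii_false e3,
            ii_tr]
          linarith
        · by_cases hv2 : v ∈ Y
          · have e1 : ¬ (σ u = σ v) := fun h => huv (hσ hu2 hv2 h)
            have e1' : ¬ (σ v = σ u) := fun h => e1 h.symm
            have e2 : ¬ (σ u = i) := hY u hu2
            have e3 : ¬ (σ v = i) := hY v hv2
            simp only [hg, hhx, hhy, sY u hu2, sY v hv2, ii_true hv2, ii_true hu2,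
              ii_false hv1, ii_false hu1, ii_false e1, ii_false e1', ii_false e2, ii_false e3,
              ii_tr]
            linarith
          · have e1 : ii (σ u = σ v) = ii (σ v = σ u) := ii_comm _ _
            have e2 : ii (i = σ v) = ii (σ v = i) := ii_comm _ _
            simp only [hg, hhx, hhy, sY u hu2, sO v hv1 hv2, ii_true hu2,
              ii_false hu1, ii_false hv1, ii_false hv2, e1, e2]
            linarith
      · by_cases hv1 : v ∈ X
        · have hv2 : v ∉ Y := hXY v hv1
          simp only [hg, hhx, hhy, sO u hu1 hu2, sX v hv1, hX v hv1, ii_true hv1,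
            ii_false hv2, ii_false hu1, ii_false hu2]
          linarith
        · by_cases hv2 : v ∈ Y
          · simp only [hg, hhx, hhy, sO u hu1 hu2, sY v hv2, ii_true hv2,
              ii_false hv1, ii_false hu1, ii_false hu2]
            linarith
          · simp only [hg, hhx, hhy, sO u hu1 hu2, sO v hv1 hv2,
              ii_false hv1, ii_false hu1, ii_false hu2, ii_false hv2]
            linarith
  have h1 : ∑ u, ∑ v, aa G u v * (ii (σ' u = σ' v) - ii (σ u = σ v)) ≤
      ∑ u, ∑ v, aa G u v * g u v := by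
    refine sum_le_sum fun u _ => sum_le_sum fun v _ => ?_
    by_cases huv : u = v
    · subst huv
      simp [aa_self]
    · exact mul_le_mul_of_nonneg_left (key u v huv) (aa_nonneg G u v)
  have h2 : ∑ u, ∑ v, aa G u v * (ii (σ' u = σ' v) - ii (σ u = σ v)) =
      ∑ u, ∑ v, aa G u v * ii (σ' u = σ' v) - ∑ u, ∑ v, aa G u v * ii (σ u = σ v) := by
    rw [← sum_sub_distrib]
    refine sum_congr rfl fun u _ => ?_
    rw [← sum_sub_distrib]
    exact sum_congr rfl fun v _ => by ring
  have h3 : ∑ u, ∑ v, aa G u v * g u v =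
      2 * ∑ u, ∑ v, aa G u v * hx u v + 2 * ∑ u, ∑ v, aa G u v * hy u v + e2 G X + e2 G Y -
        2 * eb G X Y := by
    have s1 := swap G hx
    have s2 := swap G hy
    have s3 := swap G (fun u v => ii (u ∈ X) * ii (v ∈ Y))
    unfold e2
    rw [eb_eq, eb_eq, eb_eq]
    have s4 : ∑ u, ∑ v, aa G u v * g u v =
        ∑ u, ∑ v, aa G u v * hx u v + ∑ u, ∑ v, aa G u v * hx v u +
        ∑ u, ∑ v, aa G u v * hy u v + ∑ u, ∑ v, aa G u v * hy v u +
        ∑ u, ∑ v, aa G u v * (ii (u ∈ X) * ii (v ∈ X)) +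
        ∑ u, ∑ v, aa G u v * (ii (u ∈ Y) * ii (v ∈ Y)) -
        ∑ u, ∑ v, aa G u v * (ii (u ∈ X) * ii (v ∈ Y)) -
        ∑ u, ∑ v, aa G u v * (ii (v ∈ X) * ii (u ∈ Y)) := by
      simp only [← sum_add_distrib, ← sum_sub_distrib]
      refine sum_congr rfl fun u _ => sum_congr rfl fun v _ => ?_
      simp only [hg]
      ring
    rw [s4]
    linarith
  have h4 : ∑ x ∈ X, exc G σ x (j x) = ∑ u, ∑ v, aa G u v * hx u v := by
    rw [sum_mem_eq]
    refine sum_congr rfl fun u _ => ?_
    rw [exc_eq, mul_sum]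
    refine sum_congr rfl fun v _ => ?_
    simp only [hhx]
    ring
  have h5 : ∑ y ∈ Y, exc G σ y i = ∑ u, ∑ v, aa G u v * hy u v := by
    rw [sum_mem_eq]
    refine sum_congr rfl fun u _ => ?_
    rw [exc_eq, mul_sum]
    refine sum_congr rfl fun v _ => ?_
    simp only [hhy]
    ring
  rw [h4, h5]
  linarith

end Pool.Agent.Helper5.PlzA
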